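import Pool.Agent.H32.BSDE.Final

open MeasureTheory ProbabilityTheory Filter Set BSDE

namespace Pool.Agent.Results.MP_ed2581_pr.NoClassD

/-- Negative answer, for every horizon `T > 0`, every dimension `d ≥ 1`, every complete probability
space and every `d`-dimensional Brownian motion on it, with its augmented natural filtration:
there is an integrable `F_T`-measurable terminal value `ξ` such that no solution `(Y, Z)` of
`Y_t = ξ + ∫_t^T |Z_s| / √(ln (e + |Z_s|)) ds - ∫_t^T Z_s · dB_s` has `Y` of class (D). -/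
theorem result {d : ℕ} (hd : 0 < d) {T : ℝ} (hT : 0 < T) {Ω : Type*} [MeasurableSpace Ω]
    (μ : Measure Ω) [IsProbabilityMeasure μ] [μ.IsComplete] (B : ℝ → Ω → E d)
    (hB : IsBrownian B μ) :
    ∃ ξ : Ω → ℝ, Measurable[augmented B μ hB.measurable T] ξ ∧ Integrable ξ μ ∧
      ∀ (Y : ℝ → Ω → ℝ) (Z : ℝ → Ω → E d),
        IsSolution (augmented B μ hB.measurable) μ B T ξ Y Z →
          ¬ ClassD (augmented B μ hB.measurable) μ T Y :=
  no_solution hB.fbm hT hd

end Pool.Agent.Results.MP_ed2581_pr.NoClassD
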